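import Pool.Agent.U365.POW.J
import Pool.Agent.Results.MP_a60a76_nt.MultiplicativeValues

/-!
# The Frey-Mazur conjecture for the curves with an invariant of height near `s(m)`, `m - φ(m)` or `α m + β f(m)`

Let `s(m)` be the sum of the proper divisors of `m`. Let `G` be a function with steps bounded below by a positive constant and
growth at most `v ^ e`, for example `G v = v`, let `P ≥ 17`, `κ ≥ 0` and `7 e / (2 P) + κ < 1`, and let `E₀ : y² = x³ + A₀x + B₀`
be an elliptic curve. For a set of `m` of lower density at least `1 - 7 e / (2 P) - κ`, no elliptic curve over `ℚ` whose invariant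
has a height `H` with `|H - G (s(m))| ≤ s(m) ^ κ` is `p`-congruent to `E₀` for any prime `p ≥ P`; and the same holds for
`m - φ(m)`. More precisely this holds for almost all `m` with a divisor `≥ m ^ (7 e / (2 P) + κ + ρ)` which is a prime or the
product of two different primes, and for the values `g = α m + β f(m)` of multiplicative functions with `f p = p + c` at the
primes, uniformly in `|α|, |β| ≤ N ^ δ` and with a power saving in the number of the exceptional `m`.

Proof. The number of the invariants of height `≤ X` of such partners of `E₀` is at most `X ^ (7 / (2 P) + ε)` (starting theorem).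
Let `m = k v p` with large primes `p ≠ v`. Then `g = A v p + B (v + p) + B c`, `A = α k + β f(k)`, `B = β c f(k)`, and so
`(A v + B) (A p + B) = A g + B² - A B c`: for given `g`, `k`, `α`, `β` there are only `N^o(1)` possibilities for `p` and `v`.

If the exponent `e` is smaller than `1/2`, no divisor is needed: the property holds for almost all `m` (for all `m ≤ N` but at
most `N / (log N) ^ A`, for every `A`), for all `α ≠ 0`, `β`. Here we use the divisors `D` of `m` without small prime factors:
`α m` is congruent to `g` modulo `f(D)`; if the size of all such `D` is inconvenient, then `m = R D` where the prime factors of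
`D` are so large that `D` lies in a short interval which is given by `R` and `g`.
-/

set_option autoImplicit false

namespace Pool.Agent.Results.MP_a60a76_nt.AliquotValues

open Pool.Agent.U365.POW (Law NearAll law_of law_mono)
open Pool.Agent.N733.TG (Expanding)
open Pool.Agent.Results.MP_a60a76_nt.MultiplicativeValues (Congruent jInvariant ht Exc count)

/-- No elliptic curve `y² = x³ + Ax + B` over `ℚ` whose invariant has a height `H` with `|H - G g| ≤ g ^ κ` is `p`-congruent to
`y² = x³ + A₀x + B₀` for any prime `p ≥ P`. -/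
def Near (P : ℕ) (A₀ B₀ : ℤ) (G : ℕ → ℝ) (κ : ℝ) (g : ℕ) : Prop :=
  ∀ A B : ℚ, 4 * A ^ 3 + 27 * B ^ 2 ≠ 0 → |(ht (jInvariant A B) : ℝ) - G g| ≤ (g : ℝ) ^ κ →
    ∀ p : ℕ, p.Prime → P ≤ p → ¬ Congruent p A B (A₀ : ℚ) (B₀ : ℚ)

/-- **Theorem.** Let `G` have steps `≥ a > 0` and growth at most `v ^ e`, `P ≥ 17`, `κ ≥ 0` and `7 e / (2 P) + κ < 1`. Let `E₀ : y²
= x³ + A₀x + B₀` be an elliptic curve, `A₀`, `B₀` integers. The property `Near` holds for the values of similar functions as the
aliquot sum with the exponent `7 e / (2 P) + κ` (`Law`): if this exponent is smaller than `1/2`, then (1) for ALL `α m + β f(m)`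
at almost all `m`, and so for `s(m)` and `m - φ(m)` for almost all `m`; in general, (2) at almost all the `m` with a divisor `≥
m ^ (7 e / (2 P) + κ + ρ)` which is a prime or the product of two different primes, and for `s(m)` and `m - φ(m)` for a set of
`m` of lower density at least `1 - (7 e / (2 P) + κ)`. -/
theorem result : ∀ (G : ℕ → ℝ) (e : ℝ), Expanding G e → ∀ (κ : ℝ) (P : ℕ), 0 ≤ κ → 17 ≤ P →
      e * (7 / (2 * P)) + κ < 1 → ∀ A₀ B₀ : ℤ, 4 * A₀ ^ 3 + 27 * B₀ ^ 2 ≠ 0 →
    Law (e * (7 / (2 * P)) + κ) (Near P A₀ B₀ G κ) := by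
  intro G e hG κ P hκ hP h1 A₀ B₀ h0
  have h2 := law_of (fun j : ℚ => j ∈ Exc P A₀ B₀) (fun _ => False) (fun j : ℚ => (ht j : ℝ)) hG
    (s := 7 / (2 * P)) (κ := κ) (by positivity) hκ h1 (fun ε hε => by
      obtain ⟨C, hC⟩ := count P hP A₀ B₀ h0 ε hε
      refine ⟨C, fun X hX => ?_⟩
      have he : {j : ℚ | (j ∈ Exc P A₀ B₀ ∧ ¬ False) ∧ (ht j : ℝ) ≤ X} =
          {j : ℚ | j ∈ Exc P A₀ B₀ ∧ (ht j : ℝ) ≤ X} := by
        ext t
        simp
      rw [he]
      exact hC X hX)
  have hm : ∀ g : ℕ, NearAll (fun j : ℚ => j ∈ Exc P A₀ B₀) (fun _ => False) (fun j : ℚ => (ht j : ℝ)) G κ g →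
      Near P A₀ B₀ G κ g := by
    intro g hg A B hAB hw p hp hPp hcon
    exact hg (jInvariant A B) ⟨A, B, hAB, rfl, p, hp, hPp, hcon⟩ hw
  exact law_mono h2 hm

end Pool.Agent.Results.MP_a60a76_nt.AliquotValues
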