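import Pool.Agent.U536.CF.F
import Pool.Agent.Results.MP_a60a76_nt.MultiplicativeValues

/-!
# No congruent elliptic curves with invariants whose heights are near an integer with a large common factor with a value of a multiplicative function

Let `f` be a positive multiplicative function of at most polynomial growth such that `f p ≤ M p` for the large primes `p`,
with different values at different large primes; for example Euler's function or the sum of the divisors. Let `G` have
steps bounded below by a positive constant and growth at most `v^e`, for example `α v^e`. Let `b < 1` and `0 ≤ c < 2 b -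
1`. For all `m ≤ N` but `N exp (-(log N)^c)`, for EVERY integer `w ≥ exp ((log N)^b)` with `gcd(w, f(m)) ≥ w^ρ`, no
elliptic curve `y² = x³ + Ax + B` over `ℚ` whose invariant has a height `H` with `|H - G w| ≤ w^κ` is `p`-congruent to `E₀
: y² = x³ + A₀x + B₀` for any prime `p ≥ P`, if `P ≥ 17`, `κ ≥ 0` and `7 e / (2 P) + κ < ρ ≤ 1`. The integers `w` include
all large divisors of `f(m)` and their multiples by small integers; for Euler's function, the orders of the elements of
the group of units modulo `m`.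

Proof. Write `m = k u` with `u` squarefree and composed of primes larger than `N^(1/J)`, `J = (log N)^a`, and `k ≤ exp (4
(log N)^a)`; this is possible for all `m ≤ N` but very few. If `v ∣ f(k) f(u)`, then `v = g v'` with `g ∣ f(k)` and `v' ∣
∏ f(p)`, and the number of such `u ≤ N / k` is at most `N / (k v')` times `(log N)^O(J)` times the number `τ_J(v')` of the
ordered factorizations of `v'` into `J` factors. The inequality `τ_J^q ≤ τ_K` for `K ≥ J^q` and Hölder's inequality bound
the sum over the sparse set of the exceptional `v`. The file `MultiplicativeValues` of the starting library treats the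
integers `w = f(m)`, with `N / (log N)^U` exceptions.
-/

set_option autoImplicit false

namespace Pool.Agent.Results.MP_a60a76_nt.CommonFactors

open Pool.Agent.N733.TG (LM Expanding lm_totient lm_sigma expanding_pow)
open Pool.Agent.U536.CF (Common common_windows common_of_dvd common_order)
open Pool.Agent.Results.MP_a60a76_nt.MultiplicativeValues (curve Points galois Congruent jInvariant ht Exc count)

/-- **No congruent elliptic curves with invariants whose heights are near an integer with a large common factor with a value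
of a multiplicative function.** Let `f` be multiplicative and positive, of at most polynomial growth, with `f p ≤ M p` at
the large primes, and injective there. Let `G` have steps `≥ a > 0` and growth at most `v^e`. Let `b < 1` and `0 ≤ c < 2 b
- 1`, `P ≥ 17`, `κ ≥ 0` and `7 e / (2 P) + κ < ρ ≤ 1`. For all large `N`, for all `m ≤ N` but `N exp (-(log N)^c)`, for
EVERY integer `w ≥ exp ((log N)^b)` with `gcd(w, f(m)) ≥ w^ρ`, no elliptic curve `y² = x³ + Ax + B` over `ℚ` whose
invariant has a height `H` with `|H - G w| ≤ w^κ` is `p`-congruent to `E₀ : y² = x³ + A₀x + B₀` for any prime `p ≥ P`. All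
divisors `w ≥ exp ((log N)^b)` of `f(m)` are such integers `w`, and for Euler's function the orders `≥ exp ((log N)^b)` of
the units modulo `m`. Euler's function and the sum of the divisors are examples of `f`, and `α v^e` with `α > 0`, `e ≥ 1`
is an example of `G`. -/
theorem result :
    (∀ f : ℕ → ℕ, LM f → ∀ (G : ℕ → ℝ) (e : ℝ), Expanding G e → ∀ (κ ρ b c : ℝ) (P : ℕ), 0 ≤ κ → 17 ≤ P →
      e * (7 / (2 * P)) + κ < ρ → ρ ≤ 1 → b < 1 → 0 ≤ c → c < 2 * b - 1 → ∀ A₀ B₀ : ℤ, 4 * A₀ ^ 3 + 27 * B₀ ^ 2 ≠ 0 →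
      ∃ N₀ : ℕ, ∀ N : ℕ, N₀ ≤ N →
      ({m : ℕ | 1 ≤ m ∧ m ≤ N ∧ ¬ ∀ w : ℕ, Common f b ρ N m w → ∀ A B : ℚ, 4 * A ^ 3 + 27 * B ^ 2 ≠ 0 →
        |(ht (jInvariant A B) : ℝ) - G w| ≤ (w : ℝ) ^ κ →
          ∀ p : ℕ, p.Prime → P ≤ p → ¬ Congruent p A B (A₀ : ℚ) (B₀ : ℚ)}.ncard : ℝ) ≤ N * Real.exp (-(Real.log N ^ c))) ∧
    (LM Nat.totient ∧ LM (fun m => ∑ d ∈ m.divisors, d)) ∧
    (∀ α d : ℝ, 0 < α → 1 ≤ d → Expanding (fun v => α * (v : ℝ) ^ d) d) ∧
    (∀ (f : ℕ → ℕ) (b ρ : ℝ) (N m w : ℕ), ρ ≤ 1 → Real.exp (Real.log N ^ b) ≤ (w : ℝ) → w ∣ f m → Common f b ρ N m w) ∧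
    ∀ (b ρ : ℝ) (N m : ℕ), ρ ≤ 1 → ∀ x : (ZMod m)ˣ, Real.exp (Real.log N ^ b) ≤ (orderOf x : ℝ) →
      Common Nat.totient b ρ N m (orderOf x) := by
  refine ⟨?_, ⟨lm_totient, lm_sigma⟩, fun α d hα hd => expanding_pow hα hd, fun f b ρ N m w hρ hw hd => common_of_dvd hρ hw hd,
    fun b ρ N m hρ x hx => common_order hρ x hx⟩
  refine fun f hf G e hG κ ρ b c P hκ hP h1 hρ hb hc hcb A₀ B₀ h0 => ?_
  obtain ⟨N₀, hN₀⟩ := common_windows (Exc P A₀ B₀) (fun j : ℚ => (ht j : ℝ)) hf hG (s := 7 / (2 * P)) (κ := κ)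
    (by positivity) hκ h1 hρ hb hc hcb (fun η hη => count P hP A₀ B₀ h0 η hη)
  refine ⟨N₀, fun N hN => le_trans ?_ (hN₀ N hN)⟩
  have hfin : {m : ℕ | 1 ≤ m ∧ m ≤ N ∧ ∃ w : ℕ, Common f b ρ N m w ∧ ∃ j ∈ Exc P A₀ B₀,
      |(ht j : ℝ) - G w| ≤ (w : ℝ) ^ κ}.Finite := (Set.finite_Icc 1 N).subset fun m hm => ⟨hm.1, hm.2.1⟩
  refine Nat.cast_le.2 (Set.ncard_le_ncard ?_ hfin)
  rintro m ⟨h3, h4, h5⟩
  push Not at h5
  obtain ⟨w, hw', A, B, hAB, hw, p, hp, hPp, hcon⟩ := h5
  exact ⟨h3, h4, w, hw', jInvariant A B, ⟨A, B, hAB, rfl, p, hp, hPp, hcon⟩, hw⟩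

end Pool.Agent.Results.MP_a60a76_nt.CommonFactors
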