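import Pool.Agent.U449.BV.F
import Pool.Agent.Results.MP_a60a76_nt.MultiplicativeValues

/-!
# Curves congruent to a given curve, and polynomials in two variables on arbitrary sets

Let `P ≥ 17`, `κ ≥ 0` and `7 / (2 P) + κ < δ ≤ 1`. Let `E₀` be any elliptic curve over `ℚ`. Let `f(x, y)` be an integer polynomial
with a monomial which contains both variables, `A`, `B` ARBITRARY finite sets of at least `X ^ δ` integers, and `g`, `h` ARBITRARY
real functions such that `|f(a, b) + g(a) + h(b)| ≤ X` on `A × B`. For all the pairs `(a, b)`, apart from a proportion of at most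
`X ^ (-ρ)`, no elliptic curve over `ℚ` whose invariant `j` has height `H(j)` with `|H(j) - (f(a, b) + g(a) + h(b))| ≤ X ^ κ` is
`p`-congruent to `E₀` for a prime `p ≥ P`. The same holds for the values of all functions `F(a, b)` of two variables with few
coincidences (`Rare`).

Since `A`, `B`, `g` and `h` are arbitrary, the values have no arithmetic structure, and a value can be taken by very many pairs. So
the number of the partners of `E₀` (starting theorem `FewPartners`) does not give the result directly. Proof: the inequality of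
Cauchy and Schwarz; for most pairs `a, a'` the difference `F(a, b) - F(a', b)` is small for few `b` (`Pool.Agent.U449.BV`).
-/

set_option autoImplicit false

namespace Pool.Agent.Results.MP_a60a76_nt.MixedPolynomials

open Pool.Agent.U449.BV (Rare OnProducts on_products_set polys)
open Pool.Agent.Results.MP_a60a76_nt.MultiplicativeValues (curve Points galois Congruent jInvariant ht Exc count)

/-- No elliptic curve `y² = x³ + Ax + B` over `ℚ` whose invariant has a height `H` with `|H - x| ≤ W` is `p`-congruent to
`y² = x³ + A₀x + B₀` for any prime `p ≥ P`. -/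
def Near (P : ℕ) (A₀ B₀ : ℤ) (W x : ℝ) : Prop :=
  ∀ A B : ℚ, 4 * A ^ 3 + 27 * B ^ 2 ≠ 0 → |(ht (jInvariant A B) : ℝ) - x| ≤ W →
    ∀ p : ℕ, p.Prime → P ≤ p → ¬ Congruent p A B (A₀ : ℚ) (B₀ : ℚ)

/-- **Theorem.** Let `P ≥ 17`, `κ ≥ 0`, and let `E₀ : y² = x³ + A₀x + B₀` be an elliptic curve, `A₀`, `B₀` integers. The property
`Near`, with windows of length `X ^ κ`, holds for almost all values of functions of two variables with few coincidences, on
arbitrary finite sets of at least `X ^ δ` elements, `7 / (2 P) + κ < δ ≤ 1` (`OnProducts`). Coincidences are rare for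
`f(a, b) + g(a) + h(b)`, where `f` is any integer polynomial with a monomial which contains both variables, and `g` and `h` are
arbitrary real functions, on arbitrary finite sets of integers. -/
theorem result :
    (∀ (κ : ℝ) (P : ℕ), 0 ≤ κ → 17 ≤ P → ∀ A₀ B₀ : ℤ, 4 * A₀ ^ 3 + 27 * B₀ ^ 2 ≠ 0 →
      OnProducts (7 / (2 * P) + κ) κ (Near P A₀ B₀)) ∧
    ∀ (d : ℕ) (f : MvPolynomial (Fin 2) ℤ), f.totalDegree ≤ d → (∃ m ∈ f.support, m 0 ≠ 0 ∧ m 1 ≠ 0) →
      ∀ (g h : ℤ → ℝ) (A B : Finset ℤ),
        Rare d A B (fun a b => ((MvPolynomial.eval ![a, b] f : ℤ) : ℝ) + g a + h b) := by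
  refine ⟨fun κ P hκ hP A₀ B₀ h0 => ?_, polys⟩
  refine (on_products_set (Exc P A₀ B₀) (fun j : ℚ => (ht j : ℝ)) (s := 7 / (2 * P)) (κ := κ) (by positivity) hκ
    (count P hP A₀ B₀ h0)).mono fun W x _ hg A B hAB hw p hp hPp hcon => ?_
  exact hg (jInvariant A B) hw ⟨A, B, hAB, rfl, p, hp, hPp, hcon⟩

end Pool.Agent.Results.MP_a60a76_nt.MixedPolynomials
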