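import Pool.Agent.U405.RS.F
import Pool.Agent.U405.RS.F2
import Pool.Agent.Results.MP_a60a76_nt.FewPartners

/-!
# Curves congruent to a given curve and values of `f` at thin sets of arguments

Let `f` be a positive multiplicative function of at most polynomial growth which for each `a ≥ 1` is injective at the powers
`p ^ a` of the large primes and at most `M p ^ a` there; for example Euler's function or the sum of the divisors. Let `P ≥ 17`, `α > 0`, `d ≥ 1`, `κ ≥ 0` and `e = 7 d / (2 P) + κ`. Let `E₀` be any elliptic curve over `ℚ`. No elliptic curve over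
`ℚ` whose invariant `j` has height `H(j)` with `|H(j) - α f(v)^d| ≤ f(v)^κ` is `p`-congruent to `E₀` for a prime `p ≥ P`, for almost
all `v` (with a saving of any power of the logarithm) in each of these sets:

* the values of any integer polynomial without repeated roots, of degree `< 1 / e`;
* the shifted primes `p + a`, `a` any integer, if `e < 1`;
* the intervals `(x, x + y]`, `x^τ ≤ y ≤ x`, for every `τ > e`, `τ ≤ 1`.

For `κ = 0` and every polynomial `F` without repeated roots this applies to the heights `φ(F(m))`, `σ(F(m))` as soon as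
`P > 7 deg F / 2`.

Proof. Own tool `Pool.Agent.U405.RS`: let `S` be a set of at least `N^(θ + δ)` integers up to `N` with at most
`B g^ω(k) |S| / k` multiples of `k` for every `k ≤ N^δ`, and let `W` have at most `C X^θ` elements up to `X`. Then `f(m) ∈ W` for at
most `|S| / (log N)^U` of the `m` in `S`. For this write `m = k w` with `k` composed of the primes `≤ z = N^(1 / J)`, `J` a small
multiple of `log log N`. By Rankin's method with the weights `g^ω(k)` one has `k ≤ N^η` for most `m`; and `w` has at most `J`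
prime factors and exponents `≤ J`, so that `w` is determined by `f(w)` up to `(J τ(f(w)) + 1)^J = N^o(1)` possibilities. The three
kinds of sets satisfy the hypothesis: for polynomials because `P` has at most `g` zeros modulo every prime power (lifting of
zeros by the identity `U P + V P' = R`), for shifted primes by the Brun-Titchmarsh inequality (library). The partners of `E₀`
are counted by the starting theorem `FewPartners` of this problem.
-/

set_option autoImplicit false

namespace Pool.Agent.Results.MP_a60a76_nt.SparseArguments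

open WeierstrassCurve
open scoped Classical


open Pool.Agent.N733.TG (Expanding expanding_pow)
open Pool.Agent.U405.RS (PM Sparse sparse_good sparse_set' examples)

/-- The curve `y² = x³ + Ax + B` over `ℚ`. -/
def curve (A B : ℚ) : WeierstrassCurve ℚ := ⟨0, 0, 0, A, B⟩

/-- The group of its points over the algebraic closure of `ℚ`. -/
abbrev Points (A B : ℚ) : Type := ((curve A B).baseChange (AlgebraicClosure ℚ)).toAffine.Point

/-- The action of an automorphism `σ` of the algebraic closure on the points. -/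
noncomputable def galois (A B : ℚ) (σ : AlgebraicClosure ℚ ≃ₐ[ℚ] AlgebraicClosure ℚ) :
    Points A B →+ Points A B :=
  WeierstrassCurve.Affine.Point.map (σ : AlgebraicClosure ℚ →ₐ[ℚ] AlgebraicClosure ℚ)

/-- The curves `y² = x³ + Ax + B` and `y² = x³ + A'x + B'` are `p`-congruent: some map between the
groups of points restricts to a bijective additive map between the groups of points killed by `p` which
commutes with the Galois group. -/
def Congruent (p : ℕ) (A B A' B' : ℚ) : Prop :=
  ∃ f : Points A B → Points A' B', (∀ P Q, p • P = 0 → p • Q = 0 → f (P + Q) = f P + f Q) ∧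
    Set.BijOn f {P | p • P = 0} {Q | p • Q = 0} ∧
    ∀ (σ : AlgebraicClosure ℚ ≃ₐ[ℚ] AlgebraicClosure ℚ) (P : Points A B), p • P = 0 →
      f (galois A B σ P) = galois A' B' σ (f P)

/-- The invariant of `y² = x³ + Ax + B`. -/
def jInvariant (A B : ℚ) : ℚ := 6912 * A ^ 3 / (4 * A ^ 3 + 27 * B ^ 2)

/-- the height of a rational number: the maximum of the absolute values of numerator and denominator -/
def ht (j : ℚ) : ℕ := max j.num.natAbs j.den

/-- the invariants of the curves which are `p`-congruent to `y² = x³ + A₀x + B₀` for some prime `p ≥ P` -/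
def Exc (P : ℕ) (A₀ B₀ : ℤ) : Set ℚ :=
  {j | ∃ A B : ℚ, 4 * A ^ 3 + 27 * B ^ 2 ≠ 0 ∧ jInvariant A B = j ∧
      ∃ p : ℕ, p.Prime ∧ P ≤ p ∧ Congruent p A B (A₀ : ℚ) (B₀ : ℚ)}

lemma count (P : ℕ) (hP : 17 ≤ P) (A₀ B₀ : ℤ) (h0 : 4 * A₀ ^ 3 + 27 * B₀ ^ 2 ≠ 0) (ε : ℝ) (hε : 0 < ε) :
    ∃ C : ℝ, ∀ X : ℝ, 1 ≤ X →
      {j | j ∈ Exc P A₀ B₀ ∧ (ht j : ℝ) ≤ X}.Finite ∧
      ({j | j ∈ Exc P A₀ B₀ ∧ (ht j : ℝ) ≤ X}.ncard : ℝ) ≤ C * X ^ (7 / (2 * P) + ε) := by
  obtain ⟨C, κ, h⟩ := FewPartners.result ε hε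
  refine ⟨C * |((4 * A₀ ^ 3 + 27 * B₀ ^ 2 : ℤ) : ℝ)| ^ κ, fun X hX => ?_⟩
  obtain ⟨hfin, hcard⟩ := h A₀ B₀ h0 P X hP hX
  have hsub : {j | j ∈ Exc P A₀ B₀ ∧ (ht j : ℝ) ≤ X} ⊆ FewPartners.Partners P A₀ B₀ X := by
    rintro j ⟨⟨A, B, h1, h2, h3⟩, hj⟩
    have hn : (j.num.natAbs : ℝ) ≤ (ht j : ℝ) := by exact_mod_cast le_max_left j.num.natAbs j.den
    have hd : (j.den : ℝ) ≤ (ht j : ℝ) := by exact_mod_cast le_max_right j.num.natAbs j.den
    have ha : |(j.num : ℝ)| = (j.num.natAbs : ℝ) := by
      rw [← Int.cast_abs, Int.abs_eq_natAbs]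
      simp
    refine ⟨?_, hd.trans hj, A, B, h1, h2, h3⟩
    rw [ha]
    exact hn.trans hj
  refine ⟨hfin.subset hsub, ?_⟩
  refine le_trans ?_ hcard
  exact_mod_cast Set.ncard_le_ncard hsub hfin

/-- no elliptic curve whose invariant has a height `H` with `|H - G v| ≤ v ^ κ` is `p`-congruent to
`y² = x³ + A₀x + B₀` for a prime `p ≥ P` -/
def Clear (P : ℕ) (A₀ B₀ : ℤ) (G : ℕ → ℝ) (κ : ℝ) (v : ℕ) : Prop :=
  ∀ A B : ℚ, 4 * A ^ 3 + 27 * B ^ 2 ≠ 0 → |(ht (jInvariant A B) : ℝ) - G v| ≤ (v : ℝ) ^ κ →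
    ∀ p : ℕ, p.Prime → P ≤ p → ¬ Congruent p A B (A₀ : ℚ) (B₀ : ℚ)

/-- **Theorem.** Let `f` be in the class `PM`, `G` with steps `≥ const > 0` and growth at most `v^d`, `P ≥ 17`, `κ ≥ 0` and `U`
any. Let `E₀ : y² = x³ + A₀x + B₀` be an elliptic curve, `A₀`, `B₀` integers. The property that no elliptic curve
`y² = x³ + Ax + B` over `ℚ` whose invariant has a height `H` with `|H - G v| ≤ v^κ` is `p`-congruent to `E₀` for any prime `p ≥ P`
holds in the sense `Sparse e f`, `e = 7 d / (2 P) + κ`. (`Sparse e f`: with a saving of `(log x)^U` it holds at `f v` for almost all `v` among the positive values of every integer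
polynomial without repeated roots of degree `< 1 / e`; among the shifted primes `p + a` for every `a`, if `e < 1`; and in all
intervals `(x, x + y]`, `x^τ ≤ y ≤ x`, `e < τ ≤ 1`.) Euler's function and the sum of the divisors are in the class `PM`, and
`α v^d` with `α > 0`, `d ≥ 1` is an example of `G`. -/
theorem result :
    (∀ f : ℕ → ℕ, PM f → ∀ (G : ℕ → ℝ) (d : ℝ), Expanding G d → ∀ (κ : ℝ) (P : ℕ), 0 ≤ κ → 17 ≤ P →
      ∀ A₀ B₀ : ℤ, 4 * A₀ ^ 3 + 27 * B₀ ^ 2 ≠ 0 → ∀ U : ℕ, Sparse (d * (7 / (2 * P)) + κ) f (Clear P A₀ B₀ G κ) U) ∧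
    (PM Nat.totient ∧ PM (fun m => ∑ d ∈ m.divisors, d) ∧ PM (fun m => m)) ∧
    ∀ α d : ℝ, 0 < α → 1 ≤ d → Expanding (fun v => α * (v : ℝ) ^ d) d := by
  refine ⟨fun f hf G d hG κ P hκ hP A₀ B₀ h0 U => ?_, examples, fun α d hα hd => expanding_pow hα hd⟩
  apply sparse_set' (Exc P A₀ B₀) (fun j : ℚ => (ht j : ℝ)) hf hG (s := 7 / (2 * P)) (κ := κ)
    (by positivity) hκ rfl (fun η hη => count P hP A₀ B₀ h0 η hη)
  intro v hv A B hAB hw p hp hPp hcon
  exact hv (jInvariant A B) ⟨A, B, hAB, rfl, p, hp, hPp, hcon⟩ hw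

end Pool.Agent.Results.MP_a60a76_nt.SparseArguments
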